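import Pool.Agent.H55.CG.Targets

/-!
# Row EXC of the board cog_modules

The exact value of the exponential moments of one term of a group.
-/

set_option autoImplicit false

open MeasureTheory ProbabilityTheory Filter Topology
open Pool.Agent.H95 Pool.Agent.H95.Cop Pool.Agent.H55.CG

namespace Pool.Agent.H13.CG

/-- the coefficients -/
private noncomputable def cf (U : Finset ℕ) (y z : ℕ) (s1 θ s0 s2 : ℝ) (i : ℕ) : ℝ :=
  if i < y then (if i ∈ U then s1 + θ else s1) else if i < z then s0 else s2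

private theorem sum_cf (U : Finset ℕ) (y z N : ℕ) (s1 θ s0 s2 : ℝ) (hU : U ⊆ Finset.range y)
    (hyz : y ≤ z) (hzN : z ≤ N) (x : ℕ → ℝ) :
    ∑ i ∈ Finset.range N, cf U y z s1 θ s0 s2 i * x i =
      s1 * H x 0 y + θ * (∑ i ∈ U, x i) + s0 * H x y z + s2 * H x z N := by
  rw [Finset.range_eq_Ico, ← Finset.sum_Ico_consecutive _ (Nat.zero_le z) hzN,
    ← Finset.sum_Ico_consecutive _ (Nat.zero_le y) hyz]
  have h1 : ∑ i ∈ Finset.Ico 0 y, cf U y z s1 θ s0 s2 i * x i =
      s1 * H x 0 y + θ * (∑ i ∈ U, x i) := by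
    have h2 : ∀ i ∈ Finset.Ico 0 y, cf U y z s1 θ s0 s2 i * x i =
        s1 * x i + (if i ∈ U then θ * x i else 0) := by
      intro i hi
      rw [Finset.mem_Ico] at hi
      unfold cf
      rw [if_pos hi.2]
      split_ifs <;> ring
    rw [Finset.sum_congr rfl h2, Finset.sum_add_distrib, ← Finset.mul_sum]
    congr 1
    rw [← Finset.sum_filter, Finset.mul_sum]
    refine Finset.sum_congr ?_ fun _ _ => rfl
    ext i
    rw [Finset.mem_filter, Finset.mem_Ico]
    constructor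
    · exact fun h => h.2
    · intro h
      exact ⟨⟨Nat.zero_le i, Finset.mem_range.1 (hU h)⟩, h⟩
  have h3 : ∑ i ∈ Finset.Ico y z, cf U y z s1 θ s0 s2 i * x i = s0 * H x y z := by
    unfold H
    rw [Finset.mul_sum]
    refine Finset.sum_congr rfl fun i hi => ?_
    rw [Finset.mem_Ico] at hi
    unfold cf
    rw [if_neg (by omega), if_pos hi.2]
  have h4 : ∑ i ∈ Finset.Ico z N, cf U y z s1 θ s0 s2 i * x i = s2 * H x z N := by
    unfold H
    rw [Finset.mul_sum]
    refine Finset.sum_congr rfl fun i hi => ?_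
    rw [Finset.mem_Ico] at hi
    unfold cf
    rw [if_neg (by omega), if_neg (by omega)]
  rw [h1, h3, h4]

private theorem prod_cf (ν : Measure ℝ) (U : Finset ℕ) (y z N : ℕ) (s1 θ s0 s2 : ℝ)
    (hU : U ⊆ Finset.range y) (hyz : y ≤ z) (hzN : z ≤ N) :
    ∏ i ∈ Finset.range N, Mo ν (cf U y z s1 θ s0 s2 i) =
      Mo ν (s1 + θ) ^ U.card * Mo ν s1 ^ (y - U.card) * Mo ν s0 ^ (z - y) *
        Mo ν s2 ^ (N - z) := by
  rw [Finset.range_eq_Ico, ← Finset.prod_Ico_consecutive _ (Nat.zero_le z) hzN,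
    ← Finset.prod_Ico_consecutive _ (Nat.zero_le y) hyz]
  have h1 : ∏ i ∈ Finset.Ico 0 y, Mo ν (cf U y z s1 θ s0 s2 i) =
      Mo ν (s1 + θ) ^ U.card * Mo ν s1 ^ (y - U.card) := by
    have h2 : ∀ i ∈ Finset.Ico 0 y, Mo ν (cf U y z s1 θ s0 s2 i) =
        (if i ∈ U then Mo ν (s1 + θ) else Mo ν s1) := by
      intro i hi
      rw [Finset.mem_Ico] at hi
      unfold cf
      rw [if_pos hi.2]
      split_ifs <;> rfl
    rw [Finset.prod_congr rfl h2, Finset.prod_ite, Finset.prod_const, Finset.prod_const]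
    have h5 : (Finset.Ico 0 y).filter (fun i => i ∈ U) = U := by
      ext i
      rw [Finset.mem_filter, Finset.mem_Ico]
      constructor
      · exact fun h => h.2
      · intro h
        exact ⟨⟨Nat.zero_le i, Finset.mem_range.1 (hU h)⟩, h⟩
    have h6 : ((Finset.Ico 0 y).filter (fun i => i ∉ U)).card = y - U.card := by
      have h7 := Finset.card_filter_add_card_filter_not (s := Finset.Ico 0 y) (fun i => i ∈ U)
      rw [h5, Nat.card_Ico] at h7
      omega
    rw [h5, h6]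
  have h3 : ∏ i ∈ Finset.Ico y z, Mo ν (cf U y z s1 θ s0 s2 i) = Mo ν s0 ^ (z - y) := by
    rw [← Nat.card_Ico, ← Finset.prod_const]
    refine Finset.prod_congr rfl fun i hi => ?_
    rw [Finset.mem_Ico] at hi
    unfold cf
    rw [if_neg (by omega), if_pos hi.2]
  have h4 : ∏ i ∈ Finset.Ico z N, Mo ν (cf U y z s1 θ s0 s2 i) = Mo ν s2 ^ (N - z) := by
    rw [← Nat.card_Ico, ← Finset.prod_const]
    refine Finset.prod_congr rfl fun i hi => ?_
    rw [Finset.mem_Ico] at hi
    unfold cf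
    rw [if_neg (by omega), if_neg (by omega)]
  rw [h1, h3, h4]

theorem pf_EXC (hPRE : T_PRE) : T_EXC := by
  intro ν _ hν s θ ℓ t t' n a b y z hℓ hn hab hbn hy hyz hz
  classical
  set U : Finset ℕ := (Finset.Ico a b).biUnion
    (fun j => Finset.Ico (2 * j * ℓ) ((2 * j + 1) * ℓ)) with hUdef
  have hdis : ((Finset.Ico a b : Finset ℕ) : Set ℕ).PairwiseDisjoint
      (fun j => Finset.Ico (2 * j * ℓ) ((2 * j + 1) * ℓ)) := by
    have key : ∀ i j : ℕ, i < j → (2 * i + 1) * ℓ ≤ 2 * j * ℓ := fun i j h =>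
      Nat.mul_le_mul_right ℓ (by omega)
    intro i _ j _ hij
    simp only [Function.onFun]
    rw [Finset.disjoint_left]
    intro x hx hx'
    rw [Finset.mem_Ico] at hx hx'
    rcases lt_or_gt_of_ne hij with h | h
    · have := key i j h
      omega
    · have := key j i h
      omega
  have hU : U ⊆ Finset.range y := by
    intro x hx
    rw [hUdef, Finset.mem_biUnion] at hx
    obtain ⟨j, hj, hx⟩ := hx
    rw [Finset.mem_Ico] at hj hx
    have h1 : (2 * j + 1) * ℓ ≤ (2 * n - 1) * ℓ := Nat.mul_le_mul_right ℓ (by omega)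
    rw [Finset.mem_range]
    omega
  have hcard : U.card = (b - a) * ℓ := by
    rw [hUdef, Finset.card_biUnion hdis]
    have h1 : ∀ j ∈ Finset.Ico a b, (Finset.Ico (2 * j * ℓ) ((2 * j + 1) * ℓ)).card = ℓ := by
      intro j _
      rw [Nat.card_Ico, Nat.add_mul, one_mul, Nat.add_sub_cancel_left]
    rw [Finset.sum_congr rfl h1, Finset.sum_const, Nat.card_Ico, smul_eq_mul]
  have hsum : ∀ x : ℕ → ℝ, SX ℓ x a b = ∑ i ∈ U, x i := by
    intro x
    rw [hUdef, Finset.sum_biUnion hdis]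
    rfl
  have hexp : ∀ x : ℕ → ℝ, s * ex ℓ t n t' x y z + θ * SX ℓ x a b =
      ∑ i ∈ Finset.range (2 * n * ℓ),
        cf U y z (if t then s else 0) θ (s / 2) (if t' then s else 0) i * x i := by
    intro x
    rw [sum_cf U y z (2 * n * ℓ) _ θ (s / 2) _ hU hyz hz.le x, hsum]
    unfold ex
    cases t <;> cases t' <;> simp <;> ring
  have h1 := hPRE ν hν (cf U y z (if t then s else 0) θ (s / 2) (if t' then s else 0)) (2 * n * ℓ)
  have h2 : (fun x : ℕ → ℝ => Real.exp (s * ex ℓ t n t' x y z + θ * SX ℓ x a b)) =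
      fun x : ℕ → ℝ => Real.exp (∑ i ∈ Finset.range (2 * n * ℓ),
        cf U y z (if t then s else 0) θ (s / 2) (if t' then s else 0) i * x i) := by
    funext x
    rw [hexp]
  refine ⟨?_, ?_⟩
  · rw [h2]
    exact h1.1
  · rw [h2, h1.2, prod_cf ν U y z (2 * n * ℓ) _ θ (s / 2) _ hU hyz hz.le, hcard]

end Pool.Agent.H13.CG
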